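import Mathlib
import Pool.Agent.H595R2.PR.Core
import Pool.Agent.H595R2.PR.FEW
import Pool.Agent.N375.AV.D

/-!
# Primitive roots modulo EVERY prime near the values of additive functions and their compositions

Let `F = f_1 ∘ ⋯ ∘ f_k` be a composition of functions dominated by the largest prime factor: for example additive functions
`f` with `f (q^j) ≤ C q^j` at the prime powers, with different values at different large primes (the sum of the prime factors),
the largest prime factor itself, and Kempner's function. Let `G` be a function with steps bounded below by a positive constant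
and growth at most `v^d`, for example `α v^d`, and let `κ < 1`. Take `ε < (1 - κ) / d`. One polynomial-time computable list
`L p`, which only depends on `ε` and `B`, has the following property: for all `m ≤ N` but `K N exp (- c (log N)^(1 / (k + 1)))`,
for EVERY prime `p` with `|p - G (F m)| ≤ F(m)^κ`, all but a fraction `(size p)^(-B)` of the entries of `L p` are primitive
roots modulo `p`. The values of `F` are taken with very large multiplicities and `F(m)` is in general much smaller than `m`,
of the size of a power of `m` with an exponent which has a distribution function: so this does not follow from the fact that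
there are at most `x^ε` exceptional primes.

Proof. The preimage of a set with at most `K X exp (- c (log X)^β)` elements up to `X` under a function dominated by the largest
prime factor has at most `K' X exp (- c' (log X)^(β / (1 + β)))` elements: write `m = u p`, `p` the largest prime factor, count
the primes `p` for fixed `u`, and use Rankin's bound for the smooth numbers. The exceptional primes are those for which the
primes up to `(size p)^A` do not generate the units, at most `x^ε` up to `x` (`H595R2/PR`, the tools of the starting theorem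
`AlmostAllPrimes`).
-/

set_option autoImplicit false

namespace Pool.Agent.Results.MP_18a8a6_lc.AdditiveValues

open Finset
open Pool.Agent.N733.TG (Expanding expanding_pow)
open Pool.Agent.N375.AV (PD comp win_nat pd_additive pd_largest pd_kempner)

/-- `F` is computable in polynomial time: some function on bit strings computed by a Turing machine
(Mathlib's `TM2ComputableInPolyTime`) in polynomially many steps sends the binary digits of `p` to
the code of the list `F p`. -/
def PolyTimeList (F : ℕ → List ℕ) : Prop :=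
  ∃ f : List Bool → List Bool, NPC.PolyTime f ∧ ∀ p : ℕ, f (Nat.bits p) = NPC.bits (F p)

/-- `g` is a primitive root modulo `p` -/
def IsPrimRoot (p g : ℕ) : Prop := orderOf (g : ZMod p) = p - 1

open Classical in
/-- all but a fraction `(size p) ^ (-B)` of the entries of the list `F p` are primitive roots modulo `p` -/
def MostlyPrimRoots (F : ℕ → List ℕ) (B p : ℕ) : Prop :=
  p.size ^ B * #{i ∈ range (F p).length | ¬ IsPrimRoot p ((F p).getD i 0)} ≤ (F p).length

section aux

open H595R2.PR

theorem prim_of_gen {A C p a : ℕ} (hp : p.Prime) (h : Gen A C p a) (ht : Gam p (p.size ^ A) = ⊤) :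
    IsPrimRoot p ((cands A C p).getD a 0) := by
  have : Fact p.Prime := ⟨hp⟩
  obtain ⟨u, hu1, hu2⟩ := h
  unfold IsPrimRoot
  rw [← hu1, orderOf_units, ← Nat.card_zpowers, hu2, ht, Subgroup.card_top,
    Nat.card_eq_fintype_card, ZMod.card_units]

end aux

open Classical in
/-- **Primitive roots near the values of compositions of additive functions.** (1) For every `ε > 0` and every `B` there are
`C` and a polynomial-time computable list `L p` of `n ^ C` numbers, `n` the number of binary digits of `p`, such that the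
following holds. Let `F = f_1 ∘ ⋯ ∘ f_k`, `f_i` dominated by the largest prime factor. Let `G` have steps `≥ a > 0` and growth at
most `v^d`. Let `κ ≥ 0` and `d ε + κ < 1`. For all `m ≤ N` but `K N exp (- c (log N)^(1 / (k + 1)))`, for EVERY prime `p` with
`|p - G (F m)| ≤ F(m)^κ`, all but a fraction `(size p) ^ (-B)` of the entries of `L p` are primitive roots modulo `p`. (2) The
additive functions with `f (q^j) ≤ C q^j` which are injective at the large primes, the largest prime factor and Kempner's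
function are examples of such functions `f_i`, and `α v^d` with `α > 0`, `d ≥ 1` is an example of `G`. -/
theorem result :
    (∀ (ε : ℝ), 0 < ε → ∀ B : ℕ, ∃ (C : ℕ) (L : ℕ → List ℕ), PolyTimeList L ∧
      (∀ p : ℕ, (L p).length = p.size ^ C) ∧
      ∀ fs : List (ℕ → ℕ), (∀ f ∈ fs, PD f) → ∀ (G : ℕ → ℝ) (d κ : ℝ), Expanding G d → 0 ≤ κ → d * ε + κ < 1 →
        ∃ c K : ℝ, 0 < c ∧ ∀ N : ℕ, 1 ≤ N →
          ({m : ℕ | 1 ≤ m ∧ m ≤ N ∧ ¬ ∀ p : ℕ, p.Prime → |(p : ℝ) - G (comp fs m)| ≤ (comp fs m : ℝ) ^ κ →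
            MostlyPrimRoots L B p}.ncard : ℝ) ≤ K * N * Real.exp (-(c * Real.log N ^ ((1 : ℝ) / (fs.length + 1))))) ∧
    (∀ f : ℕ → ℕ, (∀ a b : ℕ, Nat.Coprime a b → f (a * b) = f a + f b) →
      (∃ C : ℕ, ∀ q j : ℕ, q.Prime → 1 ≤ j → f (q ^ j) ≤ C * q ^ j) →
      (∃ P : ℕ, ∀ p q : ℕ, p.Prime → q.Prime → P ≤ p → P ≤ q → f p = f q → p = q) → PD f) ∧
    (PD (fun n => n.primeFactors.sup id) ∧ PD (fun n => sInf {k : ℕ | n ∣ k.factorial})) ∧
    ∀ α d : ℝ, 0 < α → 1 ≤ d → Expanding (fun v => α * (v : ℝ) ^ d) d := by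
  refine ⟨fun ε hε B => ?_, fun f h2 h3 h4 => pd_additive h2 h3 h4, ⟨pd_largest, pd_kempner⟩,
    fun α d hα hd => expanding_pow hα hd⟩
  set ε' : ℝ := min ε (1 / 2) with hε'
  have hε0 : 0 < ε' := lt_min hε (by norm_num)
  obtain ⟨A, hA⟩ := H595R2.PR.Gam_top ε' hε0
  obtain ⟨x₁, hx₁⟩ := hA A le_rfl
  obtain ⟨p₀, hp₀⟩ := H595R2.PR.core A (A + B + 2)
  set F := H595R2.PR.cands A (A + B + 2) with hF
  have hlen : ∀ p : ℕ, (F p).length = p.size ^ (A + B + 2) := fun p => by
    simp [hF, H595R2.PR.cands]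
  have hmain : ∀ p : ℕ, p₀ ≤ p → p.Prime → H595R2.PR.Gam p (p.size ^ A) = ⊤ →
      MostlyPrimRoots F B p := by
    intro p hp hpp ht
    have h0 : #{i ∈ range (p.size ^ (A + B + 2)) | ¬ IsPrimRoot p ((F p).getD i 0)} ≤
        p.size ^ (A + 1) := by
      refine le_trans (card_le_card ?_) ((hp₀ p hp hpp).trans (by rw [pow_succ]))
      intro i hi
      obtain ⟨h1, h2⟩ := mem_filter.1 hi
      exact mem_filter.2 ⟨h1, fun hg => h2 (prim_of_gen hpp hg ht)⟩
    unfold MostlyPrimRoots
    rw [hlen]
    calc p.size ^ B * _ ≤ p.size ^ B * p.size ^ (A + 1) := Nat.mul_le_mul_left _ h0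
      _ = p.size ^ (A + B + 1) := by ring
      _ ≤ p.size ^ (A + B + 2) := Nat.pow_le_pow_right (Nat.size_pos.2 hpp.pos) (by omega)
  refine ⟨A + B + 2, F, H595R2.PR.polyTime_cands A (A + B + 2), hlen, ?_⟩
  intro fs hfs G d κ hG hκ h1
  obtain ⟨c, K, hc, hcK⟩ := win_nat {p : ℕ | p.Prime ∧ ¬ MostlyPrimRoots F B p} fs hfs hG (s := ε)
    (κ := κ) hε.le hκ h1 (by
      intro δ hδ
      refine ⟨(x₁ : ℝ) + p₀ + 1, fun X hX => ?_⟩
      have hX1 : (1 : ℝ) ≤ X := by exact_mod_cast hX
      have hXp : (1 : ℝ) ≤ (X : ℝ) ^ (ε + δ) := Real.one_le_rpow hX1 (by positivity)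
      have hsub : (Ioc 0 X).filter (fun t => t ∈ {p : ℕ | p.Prime ∧ ¬ MostlyPrimRoots F B p}) ⊆
          range p₀ ∪ (range (X + 1)).filter (fun p => p.Prime ∧
            H595R2.PR.Gam p (p.size ^ A) ≠ ⊤) := by
        intro p hp
        obtain ⟨h1, h2, h3⟩ := mem_filter.1 hp
        rw [mem_union, mem_range]
        by_contra hc
        push Not at hc
        obtain ⟨h4, h5⟩ := hc
        have h6 : H595R2.PR.Gam p (p.size ^ A) = ⊤ := by
          by_contra h7
          exact h5 (mem_filter.2 ⟨mem_range.2 (by have := (mem_Ioc.1 h1).2; omega), h2, h7⟩)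
        exact h3 (hmain p h4 h2 h6)
      have h9 := (card_le_card hsub).trans (card_union_le _ _)
      rw [card_range] at h9
      have h10 : (((Ioc 0 X).filter (fun t => t ∈ {p : ℕ | p.Prime ∧ ¬ MostlyPrimRoots F B p})).card : ℝ) ≤
          p₀ + #((range (X + 1)).filter (fun p => p.Prime ∧
          H595R2.PR.Gam p (p.size ^ A) ≠ ⊤)) := by exact_mod_cast h9
      have h11 : (#((range (X + 1)).filter (fun p => p.Prime ∧
          H595R2.PR.Gam p (p.size ^ A) ≠ ⊤)) : ℝ) ≤ (x₁ : ℝ) + (X : ℝ) ^ (ε + δ) := by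
        rcases le_total x₁ X with hx | hx
        · refine (hx₁ X hx).trans ?_
          have h12 : (X : ℝ) ^ ε' ≤ (X : ℝ) ^ (ε + δ) :=
            Real.rpow_le_rpow_of_exponent_le hX1 ((min_le_left _ _).trans (by linarith))
          have h13 : (0 : ℝ) ≤ x₁ := by positivity
          linarith
        · have h12 : (#((range (X + 1)).filter (fun p => p.Prime ∧
              H595R2.PR.Gam p (p.size ^ A) ≠ ⊤)) : ℝ) ≤ X := by
            have h13 : (range (X + 1)).filter (fun p => p.Prime ∧
                H595R2.PR.Gam p (p.size ^ A) ≠ ⊤) ⊆ Ioc 0 X := by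
              intro p hp
              obtain ⟨h1, h2, _⟩ := mem_filter.1 hp
              exact mem_Ioc.2 ⟨h2.pos, by have := mem_range.1 h1; omega⟩
            have h14 := card_le_card h13
            rw [Nat.card_Ioc, Nat.sub_zero] at h14
            exact_mod_cast h14
          have h15 : (X : ℝ) ≤ x₁ := by exact_mod_cast hx
          linarith
      have h16 : (0 : ℝ) ≤ (x₁ : ℝ) + p₀ := by positivity
      have h17 : (0 : ℝ) ≤ ((x₁ : ℝ) + p₀) * ((X : ℝ) ^ (ε + δ) - 1) :=
        mul_nonneg h16 (by linarith)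
      have h18 : (x₁ : ℝ) + p₀ + (X : ℝ) ^ (ε + δ) ≤ ((x₁ : ℝ) + p₀ + 1) * (X : ℝ) ^ (ε + δ) := by
        nlinarith
      refine le_trans ?_ h18
      refine le_trans (le_of_eq ?_) (h10.trans (by linarith))
      congr!)
  refine ⟨c, K, hc, fun N hN => le_trans ?_ (hcK N hN)⟩
  have hfin : {m : ℕ | 1 ≤ m ∧ m ≤ N ∧ ∃ n : ℕ, (n = 0 ∨ n ∈ {p : ℕ | p.Prime ∧
      ¬ MostlyPrimRoots F B p}) ∧ |(n : ℝ) - G (comp fs m)| ≤ (comp fs m : ℝ) ^ κ}.Finite := by
    apply (Set.finite_Icc 1 N).subset
    intro m hm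
    exact ⟨hm.1, hm.2.1⟩
  have h2 : {m : ℕ | 1 ≤ m ∧ m ≤ N ∧ ¬ ∀ p : ℕ, p.Prime → |(p : ℝ) - G (comp fs m)| ≤ (comp fs m : ℝ) ^ κ →
      MostlyPrimRoots F B p} ⊆ {m : ℕ | 1 ≤ m ∧ m ≤ N ∧ ∃ n : ℕ, (n = 0 ∨ n ∈ {p : ℕ | p.Prime ∧
      ¬ MostlyPrimRoots F B p}) ∧ |(n : ℝ) - G (comp fs m)| ≤ (comp fs m : ℝ) ^ κ} := by
    rintro m ⟨h2, h3, h4⟩
    push Not at h4
    obtain ⟨n, hn, h5, h6⟩ := h4
    exact ⟨h2, h3, n, Or.inr ⟨hn, h6⟩, h5⟩
  exact_mod_cast Set.ncard_le_ncard h2 hfin

end Pool.Agent.Results.MP_18a8a6_lc.AdditiveValues
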