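import Mathlib
import Pool.Agent.H595R2.PR.Core
import Pool.Agent.H595R2.PR.FEW
import Pool.Agent.N251.LF.Win

/-!
# Primitive roots modulo EVERY prime near the values of generic polynomials and generic linear forms

Let `v_i`, `i` in a countable set, be vectors in `ℝ^k`, `O(X^(τ + δ))` of them of norm at most `X` for every `δ > 0`: for
instance `(1, n, …, n^d)` with `τ = 1 / d`, or `(b_1^(n_1), …, b_k^(n_k))`, `b_j > 1`, for all `n_1, …, n_k`, with `τ = 0`, or
`(n_1^(a_1), …, n_k^(a_k))` with `τ = ∑ 1 / a_j`. One polynomial-time computable list `F p`, which only depends on `ε` and `B`,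
has the following property: for all `α` in `ℝ^k` outside a set of Hausdorff dimension at most `k - 1 + (ε + τ) / (1 - θ)`, and
all `c`, for all but finitely many `i`, for EVERY prime `p` with `|p - α · v_i| ≤ c ‖v_i‖^θ`, all but a fraction `(size p)^(-B)`
of the entries of `F p` are primitive roots modulo `p`. The bound is less than `k` if `ε + τ + θ < 1`: so this holds for all
primes near `f(n)`, `n` large, for almost all real polynomials `f` of degree `d ≥ 2`, and for all large primes near the numbers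
`α_1 b_1^(n_1) + … + α_k b_k^(n_k)`, for almost all `(α_1, …, α_k)`.

Proof. For each `i` the set of the `α` with an exceptional prime in the window is contained in few slabs between parallel
hyperplanes, by the count in the starting theorem `AlmostAllPrimes` of this problem; they are covered by small cubes
(`Pool.Agent.N251.LF`).
-/

set_option autoImplicit false

namespace Pool.Agent.Results.MP_18a8a6_lc.GenericLinearForms

open Finset
open Pool.Agent.N251.LF (Fam Sq linear_win_nat)

/-- `F` is computable in polynomial time: some function on bit strings computed by a Turing machine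
(Mathlib's `TM2ComputableInPolyTime`) in polynomially many steps sends the binary digits of `p` to
the code of the list `F p`. -/
def PolyTimeList (F : ℕ → List ℕ) : Prop :=
  ∃ f : List Bool → List Bool, NPC.PolyTime f ∧ ∀ p : ℕ, f (Nat.bits p) = NPC.bits (F p)

/-- `g` is a primitive root modulo `p` -/
def IsPrimRoot (p g : ℕ) : Prop := orderOf (g : ZMod p) = p - 1

open Classical in
/-- all but a fraction `(size p) ^ (-B)` of the entries of the list `F p` are primitive roots modulo `p` -/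
def MostlyPrimRoots (F : ℕ → List ℕ) (B p : ℕ) : Prop :=
  p.size ^ B * #{i ∈ range (F p).length | ¬ IsPrimRoot p ((F p).getD i 0)} ≤ (F p).length

section aux

open H595R2.PR

theorem prim_of_gen {A C p a : ℕ} (hp : p.Prime) (h : Gen A C p a) (ht : Gam p (p.size ^ A) = ⊤) :
    IsPrimRoot p ((cands A C p).getD a 0) := by
  have : Fact p.Prime := ⟨hp⟩
  obtain ⟨u, hu1, hu2⟩ := h
  unfold IsPrimRoot
  rw [← hu1, orderOf_units, ← Nat.card_zpowers, hu2, ht, Subgroup.card_top,
    Nat.card_eq_fintype_card, ZMod.card_units]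

end aux

open Classical in
/-- **Primitive roots near the values of generic linear forms.** (1) For every `ε > 0` and every `B` there are `C` and a
polynomial-time computable list `F p` of `n ^ C` numbers, `n` the number of binary digits of `p`, such that the following
holds. Let `v` be a family of vectors in `ℝ^k` of exponent `τ ≥ 0` and `θ < 1`. For all `α` in `ℝ^k` outside a set of
Hausdorff dimension at most `k - 1 + (ε + τ) / (1 - θ)` and all `c`, for all but finitely many `i`, for EVERY prime `p` with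
`|p - ∑ α_j v_(i,j)| ≤ c ‖v_i‖^θ`, all but a fraction `(size p) ^ (-B)` of the entries of `F p` are primitive roots modulo `p`.
(2) The vectors `(1, n, …, n^d)` are a family of exponent `1 / d`, the `(b_1^(n_1), …, b_k^(n_k))` with `b_j > 1` one of
exponent `0`, the `(n_1^(a_1), …, n_k^(a_k))` with `a_j > 0` one of exponent `∑ 1 / a_j`, and the `(u_1(n_1), …, u_k(n_k))` one
of exponent `∑ τ_j`, if the sequences `u_j` have exponents `τ_j`. -/
theorem result :
    (∀ (ε : ℝ), 0 < ε → ∀ B : ℕ, ∃ (C : ℕ) (F : ℕ → List ℕ), PolyTimeList F ∧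
      (∀ p : ℕ, (F p).length = p.size ^ C) ∧
      ∀ (k : ℕ) (ι : Type) (v : ι → Fin k → ℝ) (τ : ℝ), Fam v τ → 0 ≤ τ → ∀ θ : ℝ, θ < 1 →
        ∃ E : Set (Fin k → ℝ), dimH E ≤ ENNReal.ofReal ((k : ℝ) - 1 + (ε + τ) / (1 - θ)) ∧
          ∀ α, α ∉ E → ∀ c : ℝ, {i | ¬ ∀ p : ℕ, p.Prime →
            |(p : ℝ) - ∑ j, α j * v i j| ≤ c * ‖v i‖ ^ θ → MostlyPrimRoots F B p}.Finite) ∧
    (∀ d : ℕ, 1 ≤ d → Fam (fun (n : ℕ) (j : Fin (d + 1)) => (n : ℝ) ^ (j : ℕ)) (1 / d)) ∧
    (∀ (k : ℕ) (b : Fin k → ℝ), (∀ j, 1 < b j) → Fam (fun (n : Fin k → ℕ) (j : Fin k) => b j ^ n j) 0) ∧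
    (∀ (k : ℕ) (a : Fin k → ℝ), (∀ j, 0 < a j) →
      Fam (fun (n : Fin k → ℕ) (j : Fin k) => (n j : ℝ) ^ a j) (∑ j, 1 / a j)) ∧
    ∀ (k : ℕ) (u : Fin k → ℕ → ℝ) (τ : Fin k → ℝ), (∀ j, Sq (u j) (τ j)) →
      Fam (fun (n : Fin k → ℕ) (j : Fin k) => u j (n j)) (∑ j, τ j) := by
  refine ⟨fun ε hε B => ?_, Pool.Agent.N251.LF.examples⟩
  set ε' : ℝ := min ε (1 / 2) with hε'
  have hε0 : 0 < ε' := lt_min hε (by norm_num)
  obtain ⟨A, hA⟩ := H595R2.PR.Gam_top ε' hε0
  obtain ⟨x₁, hx₁⟩ := hA A le_rfl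
  obtain ⟨p₀, hp₀⟩ := H595R2.PR.core A (A + B + 2)
  set F := H595R2.PR.cands A (A + B + 2) with hF
  have hlen : ∀ p : ℕ, (F p).length = p.size ^ (A + B + 2) := fun p => by
    simp [hF, H595R2.PR.cands]
  have hmain : ∀ p : ℕ, p₀ ≤ p → p.Prime → H595R2.PR.Gam p (p.size ^ A) = ⊤ →
      MostlyPrimRoots F B p := by
    intro p hp hpp ht
    have h0 : #{i ∈ range (p.size ^ (A + B + 2)) | ¬ IsPrimRoot p ((F p).getD i 0)} ≤
        p.size ^ (A + 1) := by
      refine le_trans (card_le_card ?_) ((hp₀ p hp hpp).trans (by rw [pow_succ]))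
      intro i hi
      obtain ⟨h1, h2⟩ := mem_filter.1 hi
      exact mem_filter.2 ⟨h1, fun hg => h2 (prim_of_gen hpp hg ht)⟩
    unfold MostlyPrimRoots
    rw [hlen]
    calc p.size ^ B * _ ≤ p.size ^ B * p.size ^ (A + 1) := Nat.mul_le_mul_left _ h0
      _ = p.size ^ (A + B + 1) := by ring
      _ ≤ p.size ^ (A + B + 2) := Nat.pow_le_pow_right (Nat.size_pos.2 hpp.pos) (by omega)
  refine ⟨A + B + 2, F, H595R2.PR.polyTime_cands A (A + B + 2), hlen, ?_⟩
  intro k ι v τ hv hτ θ hθ
  obtain ⟨E, hE, hE2⟩ := linear_win_nat {p : ℕ | p.Prime ∧ ¬ MostlyPrimRoots F B p} v (s := ε) hε.le hτ hθ hv (by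
      intro δ hδ
      refine ⟨(x₁ : ℝ) + p₀ + 1, fun X hX => ?_⟩
      have hX1 : (1 : ℝ) ≤ X := by exact_mod_cast hX
      have hXp : (1 : ℝ) ≤ (X : ℝ) ^ (ε + δ) := Real.one_le_rpow hX1 (by positivity)
      have hsub : (Ioc 0 X).filter (fun t => t ∈ {p : ℕ | p.Prime ∧ ¬ MostlyPrimRoots F B p}) ⊆
          range p₀ ∪ (range (X + 1)).filter (fun p => p.Prime ∧
            H595R2.PR.Gam p (p.size ^ A) ≠ ⊤) := by
        intro p hp
        obtain ⟨h1, h2, h3⟩ := mem_filter.1 hp
        rw [mem_union, mem_range]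
        by_contra hc
        push Not at hc
        obtain ⟨h4, h5⟩ := hc
        have h6 : H595R2.PR.Gam p (p.size ^ A) = ⊤ := by
          by_contra h7
          exact h5 (mem_filter.2 ⟨mem_range.2 (by have := (mem_Ioc.1 h1).2; omega), h2, h7⟩)
        exact h3 (hmain p h4 h2 h6)
      have h9 := (card_le_card hsub).trans (card_union_le _ _)
      rw [card_range] at h9
      have h10 : (((Ioc 0 X).filter (fun t => t ∈ {p : ℕ | p.Prime ∧ ¬ MostlyPrimRoots F B p})).card : ℝ) ≤
          p₀ + #((range (X + 1)).filter (fun p => p.Prime ∧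
          H595R2.PR.Gam p (p.size ^ A) ≠ ⊤)) := by exact_mod_cast h9
      have h11 : (#((range (X + 1)).filter (fun p => p.Prime ∧
          H595R2.PR.Gam p (p.size ^ A) ≠ ⊤)) : ℝ) ≤ (x₁ : ℝ) + (X : ℝ) ^ (ε + δ) := by
        rcases le_total x₁ X with hx | hx
        · refine (hx₁ X hx).trans ?_
          have h12 : (X : ℝ) ^ ε' ≤ (X : ℝ) ^ (ε + δ) :=
            Real.rpow_le_rpow_of_exponent_le hX1 ((min_le_left _ _).trans (by linarith))
          have h13 : (0 : ℝ) ≤ x₁ := by positivity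
          linarith
        · have h12 : (#((range (X + 1)).filter (fun p => p.Prime ∧
              H595R2.PR.Gam p (p.size ^ A) ≠ ⊤)) : ℝ) ≤ X := by
            have h13 : (range (X + 1)).filter (fun p => p.Prime ∧
                H595R2.PR.Gam p (p.size ^ A) ≠ ⊤) ⊆ Ioc 0 X := by
              intro p hp
              obtain ⟨h1, h2, _⟩ := mem_filter.1 hp
              exact mem_Ioc.2 ⟨h2.pos, by have := mem_range.1 h1; omega⟩
            have h14 := card_le_card h13
            rw [Nat.card_Ioc, Nat.sub_zero] at h14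
            exact_mod_cast h14
          have h15 : (X : ℝ) ≤ x₁ := by exact_mod_cast hx
          linarith
      have h16 : (0 : ℝ) ≤ (x₁ : ℝ) + p₀ := by positivity
      have h17 : (0 : ℝ) ≤ ((x₁ : ℝ) + p₀) * ((X : ℝ) ^ (ε + δ) - 1) :=
        mul_nonneg h16 (by linarith)
      have h18 : (x₁ : ℝ) + p₀ + (X : ℝ) ^ (ε + δ) ≤ ((x₁ : ℝ) + p₀ + 1) * (X : ℝ) ^ (ε + δ) := by
        nlinarith
      refine le_trans ?_ h18
      refine le_trans (le_of_eq ?_) (h10.trans (by linarith))
      congr!)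
  refine ⟨E, hE, fun α hα c => (hE2 α hα c).subset ?_⟩
  intro i hi
  simp only [Set.mem_ofPred_eq] at hi ⊢
  push Not at hi
  obtain ⟨p, hp, h1, h2⟩ := hi
  exact ⟨p, Or.inr ⟨hp, h2⟩, h1⟩

end Pool.Agent.Results.MP_18a8a6_lc.GenericLinearForms
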