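import Mathlib
import Pool.Agent.H595R2.PR.Core
import Pool.Agent.H595R2.PR.FEW
import Pool.Agent.N733.TG.K

/-!
# Primitive roots modulo EVERY prime near functions of the values of multiplicative functions

Let `f` be a positive multiplicative function of at most polynomial growth such that `f p ≤ M p` for the large primes `p`,
with different values at different large primes; for example Euler's function or the sum of the divisors. Let `G` be a
function with steps bounded below by a positive constant and growth at most `v^d`, for example `α v^d`, and let `κ < 1`. Take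
`ε < (1 - κ) / d`. One polynomial-time computable list `F p`, which only depends on `ε` and `B`, has the following property:
for all `m ≤ N` but `N / (log N)^U`, for EVERY prime `p` with `|p - G (f m)| ≤ f(m)^κ`, all but a fraction `(size p)^(-B)` of
the entries of `F p` are primitive roots modulo `p`. The values of `f` are in general taken with very large multiplicities,
and so this does not follow from the fact that there are at most `x^ε` exceptional primes.

Proof. Write `m = k w` where `k` is composed of the primes `≤ z = N^(1 / J)`, `J` about `log log N`. For most `m` one has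
`k ≤ N^η`, and `w` is a product of at most `J` different primes. So `f(w)` is taken at most `(1 + τ)^J` times, `τ` its number of
divisors, which is at most `N^o(1)` on average, even in mean square: and the exceptional set has only `N^(1 - δ)` elements.
-/

set_option autoImplicit false

namespace Pool.Agent.Results.MP_18a8a6_lc.MultiplicativeValues

open Finset
open Pool.Agent.N733.TG (LM Expanding lm_totient lm_sigma keep_win_nat expanding_pow)

/-- `F` is computable in polynomial time: some function on bit strings computed by a Turing machine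
(Mathlib's `TM2ComputableInPolyTime`) in polynomially many steps sends the binary digits of `p` to
the code of the list `F p`. -/
def PolyTimeList (F : ℕ → List ℕ) : Prop :=
  ∃ f : List Bool → List Bool, NPC.PolyTime f ∧ ∀ p : ℕ, f (Nat.bits p) = NPC.bits (F p)

/-- `g` is a primitive root modulo `p` -/
def IsPrimRoot (p g : ℕ) : Prop := orderOf (g : ZMod p) = p - 1

open Classical in
/-- all but a fraction `(size p) ^ (-B)` of the entries of the list `F p` are primitive roots modulo `p` -/
def MostlyPrimRoots (F : ℕ → List ℕ) (B p : ℕ) : Prop :=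
  p.size ^ B * #{i ∈ range (F p).length | ¬ IsPrimRoot p ((F p).getD i 0)} ≤ (F p).length

section aux

open H595R2.PR

theorem prim_of_gen {A C p a : ℕ} (hp : p.Prime) (h : Gen A C p a) (ht : Gam p (p.size ^ A) = ⊤) :
    IsPrimRoot p ((cands A C p).getD a 0) := by
  have : Fact p.Prime := ⟨hp⟩
  obtain ⟨u, hu1, hu2⟩ := h
  unfold IsPrimRoot
  rw [← hu1, orderOf_units, ← Nat.card_zpowers, hu2, ht, Subgroup.card_top,
    Nat.card_eq_fintype_card, ZMod.card_units]

end aux

open Classical in
/-- **Primitive roots near the values of multiplicative functions.** (1) For every `ε > 0` and every `B` there are `C` and a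
polynomial-time computable list `F p` of `n ^ C` numbers, `n` the number of binary digits of `p`, such that the following
holds. Let `f` be multiplicative and positive, of at most polynomial growth, with `f p ≤ M p` at the large primes, and
injective there. Let `G` have steps `≥ a > 0` and growth at most `v^d`. Let `κ ≥ 0` and `d ε + κ < 1`. For every `U` and all
large `N`, for all `m ≤ N` but `N / (log N)^U`, for EVERY prime `p` with `|p - G (f m)| ≤ f(m)^κ`, all but a fraction
`(size p) ^ (-B)` of the entries of `F p` are primitive roots modulo `p`. (2) Euler's function and the sum of the divisors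
are examples of such functions `f`, and `α v^d` with `α > 0`, `d ≥ 1` is an example of `G`. -/
theorem result :
    (∀ (ε : ℝ), 0 < ε → ∀ B : ℕ, ∃ (C : ℕ) (F : ℕ → List ℕ), PolyTimeList F ∧
      (∀ p : ℕ, (F p).length = p.size ^ C) ∧
      ∀ f : ℕ → ℕ, LM f → ∀ (G : ℕ → ℝ) (d κ : ℝ), Expanding G d → 0 ≤ κ → d * ε + κ < 1 →
        ∀ U : ℕ, ∃ N₀ : ℕ, ∀ N : ℕ, N₀ ≤ N →
          ({m : ℕ | 1 ≤ m ∧ m ≤ N ∧ ¬ ∀ p : ℕ, p.Prime → |(p : ℝ) - G (f m)| ≤ (f m : ℝ) ^ κ →
            MostlyPrimRoots F B p}.ncard : ℝ) ≤ N / Real.log N ^ U) ∧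
    (LM Nat.totient ∧ LM (fun m => ∑ d ∈ m.divisors, d)) ∧
    ∀ α d : ℝ, 0 < α → 1 ≤ d → Expanding (fun v => α * (v : ℝ) ^ d) d := by
  refine ⟨fun ε hε B => ?_, ⟨lm_totient, lm_sigma⟩, fun α d hα hd => expanding_pow hα hd⟩
  set ε' : ℝ := min ε (1 / 2) with hε'
  have hε0 : 0 < ε' := lt_min hε (by norm_num)
  obtain ⟨A, hA⟩ := H595R2.PR.Gam_top ε' hε0
  obtain ⟨x₁, hx₁⟩ := hA A le_rfl
  obtain ⟨p₀, hp₀⟩ := H595R2.PR.core A (A + B + 2)
  set F := H595R2.PR.cands A (A + B + 2) with hF
  have hlen : ∀ p : ℕ, (F p).length = p.size ^ (A + B + 2) := fun p => by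
    simp [hF, H595R2.PR.cands]
  have hmain : ∀ p : ℕ, p₀ ≤ p → p.Prime → H595R2.PR.Gam p (p.size ^ A) = ⊤ →
      MostlyPrimRoots F B p := by
    intro p hp hpp ht
    have h0 : #{i ∈ range (p.size ^ (A + B + 2)) | ¬ IsPrimRoot p ((F p).getD i 0)} ≤
        p.size ^ (A + 1) := by
      refine le_trans (card_le_card ?_) ((hp₀ p hp hpp).trans (by rw [pow_succ]))
      intro i hi
      obtain ⟨h1, h2⟩ := mem_filter.1 hi
      exact mem_filter.2 ⟨h1, fun hg => h2 (prim_of_gen hpp hg ht)⟩
    unfold MostlyPrimRoots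
    rw [hlen]
    calc p.size ^ B * _ ≤ p.size ^ B * p.size ^ (A + 1) := Nat.mul_le_mul_left _ h0
      _ = p.size ^ (A + B + 1) := by ring
      _ ≤ p.size ^ (A + B + 2) := Nat.pow_le_pow_right (Nat.size_pos.2 hpp.pos) (by omega)
  refine ⟨A + B + 2, F, H595R2.PR.polyTime_cands A (A + B + 2), hlen, ?_⟩
  intro f hf G d κ hG hκ h1 U
  obtain ⟨N₀, hN₀⟩ := keep_win_nat {p : ℕ | p.Prime ∧ ¬ MostlyPrimRoots F B p} hf hG (s := ε)
    (κ := κ) hε.le hκ h1 (by
      intro δ hδ
      refine ⟨(x₁ : ℝ) + p₀ + 1, fun X hX => ?_⟩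
      have hX1 : (1 : ℝ) ≤ X := by exact_mod_cast hX
      have hXp : (1 : ℝ) ≤ (X : ℝ) ^ (ε + δ) := Real.one_le_rpow hX1 (by positivity)
      have hsub : (Ioc 0 X).filter (fun t => t ∈ {p : ℕ | p.Prime ∧ ¬ MostlyPrimRoots F B p}) ⊆
          range p₀ ∪ (range (X + 1)).filter (fun p => p.Prime ∧
            H595R2.PR.Gam p (p.size ^ A) ≠ ⊤) := by
        intro p hp
        obtain ⟨h1, h2, h3⟩ := mem_filter.1 hp
        rw [mem_union, mem_range]
        by_contra hc
        push Not at hc
        obtain ⟨h4, h5⟩ := hc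
        have h6 : H595R2.PR.Gam p (p.size ^ A) = ⊤ := by
          by_contra h7
          exact h5 (mem_filter.2 ⟨mem_range.2 (by have := (mem_Ioc.1 h1).2; omega), h2, h7⟩)
        exact h3 (hmain p h4 h2 h6)
      have h9 := (card_le_card hsub).trans (card_union_le _ _)
      rw [card_range] at h9
      have h10 : (((Ioc 0 X).filter (fun t => t ∈ {p : ℕ | p.Prime ∧ ¬ MostlyPrimRoots F B p})).card : ℝ) ≤
          p₀ + #((range (X + 1)).filter (fun p => p.Prime ∧
          H595R2.PR.Gam p (p.size ^ A) ≠ ⊤)) := by exact_mod_cast h9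
      have h11 : (#((range (X + 1)).filter (fun p => p.Prime ∧
          H595R2.PR.Gam p (p.size ^ A) ≠ ⊤)) : ℝ) ≤ (x₁ : ℝ) + (X : ℝ) ^ (ε + δ) := by
        rcases le_total x₁ X with hx | hx
        · refine (hx₁ X hx).trans ?_
          have h12 : (X : ℝ) ^ ε' ≤ (X : ℝ) ^ (ε + δ) :=
            Real.rpow_le_rpow_of_exponent_le hX1 ((min_le_left _ _).trans (by linarith))
          have h13 : (0 : ℝ) ≤ x₁ := by positivity
          linarith
        · have h12 : (#((range (X + 1)).filter (fun p => p.Prime ∧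
              H595R2.PR.Gam p (p.size ^ A) ≠ ⊤)) : ℝ) ≤ X := by
            have h13 : (range (X + 1)).filter (fun p => p.Prime ∧
                H595R2.PR.Gam p (p.size ^ A) ≠ ⊤) ⊆ Ioc 0 X := by
              intro p hp
              obtain ⟨h1, h2, _⟩ := mem_filter.1 hp
              exact mem_Ioc.2 ⟨h2.pos, by have := mem_range.1 h1; omega⟩
            have h14 := card_le_card h13
            rw [Nat.card_Ioc, Nat.sub_zero] at h14
            exact_mod_cast h14
          have h15 : (X : ℝ) ≤ x₁ := by exact_mod_cast hx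
          linarith
      have h16 : (0 : ℝ) ≤ (x₁ : ℝ) + p₀ := by positivity
      have h17 : (0 : ℝ) ≤ ((x₁ : ℝ) + p₀) * ((X : ℝ) ^ (ε + δ) - 1) :=
        mul_nonneg h16 (by linarith)
      have h18 : (x₁ : ℝ) + p₀ + (X : ℝ) ^ (ε + δ) ≤ ((x₁ : ℝ) + p₀ + 1) * (X : ℝ) ^ (ε + δ) := by
        nlinarith
      refine le_trans ?_ h18
      refine le_trans (le_of_eq ?_) (h10.trans (by linarith))
      congr!) U
  refine ⟨N₀, fun N hN => le_trans ?_ (hN₀ N hN)⟩
  have hfin : {m : ℕ | 1 ≤ m ∧ m ≤ N ∧ ∃ n : ℕ, (n = 0 ∨ n ∈ {p : ℕ | p.Prime ∧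
      ¬ MostlyPrimRoots F B p}) ∧ |(n : ℝ) - G (f m)| ≤ (f m : ℝ) ^ κ}.Finite := by
    apply (Set.finite_Icc 1 N).subset
    intro m hm
    exact ⟨hm.1, hm.2.1⟩
  have h2 : {m : ℕ | 1 ≤ m ∧ m ≤ N ∧ ¬ ∀ p : ℕ, p.Prime → |(p : ℝ) - G (f m)| ≤ (f m : ℝ) ^ κ →
      MostlyPrimRoots F B p} ⊆ {m : ℕ | 1 ≤ m ∧ m ≤ N ∧ ∃ n : ℕ, (n = 0 ∨ n ∈ {p : ℕ | p.Prime ∧
      ¬ MostlyPrimRoots F B p}) ∧ |(n : ℝ) - G (f m)| ≤ (f m : ℝ) ^ κ} := by
    rintro m ⟨h2, h3, h4⟩
    push Not at h4
    obtain ⟨n, hn, h5, h6⟩ := h4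
    exact ⟨h2, h3, n, Or.inr ⟨hn, h6⟩, h5⟩
  exact_mod_cast Set.ncard_le_ncard h2 hfin

end Pool.Agent.Results.MP_18a8a6_lc.MultiplicativeValues
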