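import Mathlib
import Pool.Agent.H595R2.PR.Core
import Pool.Agent.H595R2.PR.FEW
import Pool.Agent.N671.DA.Win

/-!
# Primitive roots modulo EVERY prime near functions of the denominators of good simultaneous approximations

Let `α_1, …, α_m` be real numbers. We consider the natural numbers `q` with `‖q α_j - β_j‖ ≤ c q^(-τ)` for all `j`, `‖x‖` the
distance to the nearest integer; for `β = 0`, `c = 1`, `τ = 1 / m` these include the denominators of all best simultaneous
approximations (the denominators of the convergents for `m = 1`). They form a very sparse sequence, with gaps growing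
exponentially for almost all `α` if `τ = 1 / m`. Let `G` be a function with steps bounded below by a positive constant and
growth at most `v^d`, for example `α v^d`. One polynomial-time computable list `F p`, which only depends on `ε` and `B`, has
the following property: for all `α` in `ℝ^m` outside a set of Hausdorff dimension at most `(m + d ε + κ) / (1 + τ)`, and all
`c`, for all but finitely many such `q`, for EVERY prime `p` with `|p - G q| ≤ q^κ`, all but a fraction `(size p)^(-B)` of the
entries of `F p` are primitive roots modulo `p`. For `τ = 1 / m` the bound is less than `m` if `d ε + κ < 1`; and so the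
statement holds for almost all `α`.

Proof. The `q` such that some exceptional prime is near `G q` form a set with `O(X^(d ε + κ + δ))` elements up to `X`, by the
count in the starting theorem `AlmostAllPrimes` of this problem; and the `α` with `‖q α_j - β_j‖ ≤ c q^(-τ)` for all `j` and
infinitely many `q` of such a set are covered by few small cubes.
-/

set_option autoImplicit false

namespace Pool.Agent.Results.MP_18a8a6_lc.SimultaneousApproximations

open Finset
open Pool.Agent.N671.DA (Solves Expanding expanding_pow approx_win_nat)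

/-- `F` is computable in polynomial time: some function on bit strings computed by a Turing machine
(Mathlib's `TM2ComputableInPolyTime`) in polynomially many steps sends the binary digits of `p` to
the code of the list `F p`. -/
def PolyTimeList (F : ℕ → List ℕ) : Prop :=
  ∃ f : List Bool → List Bool, NPC.PolyTime f ∧ ∀ p : ℕ, f (Nat.bits p) = NPC.bits (F p)

/-- `g` is a primitive root modulo `p` -/
def IsPrimRoot (p g : ℕ) : Prop := orderOf (g : ZMod p) = p - 1

open Classical in
/-- all but a fraction `(size p) ^ (-B)` of the entries of the list `F p` are primitive roots modulo `p` -/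
def MostlyPrimRoots (F : ℕ → List ℕ) (B p : ℕ) : Prop :=
  p.size ^ B * #{i ∈ range (F p).length | ¬ IsPrimRoot p ((F p).getD i 0)} ≤ (F p).length

section aux

open H595R2.PR

theorem prim_of_gen {A C p a : ℕ} (hp : p.Prime) (h : Gen A C p a) (ht : Gam p (p.size ^ A) = ⊤) :
    IsPrimRoot p ((cands A C p).getD a 0) := by
  have : Fact p.Prime := ⟨hp⟩
  obtain ⟨u, hu1, hu2⟩ := h
  unfold IsPrimRoot
  rw [← hu1, orderOf_units, ← Nat.card_zpowers, hu2, ht, Subgroup.card_top,
    Nat.card_eq_fintype_card, ZMod.card_units]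

end aux

open Classical in
/-- **Primitive roots near the denominators of good simultaneous approximations.** (1) For every `ε > 0` and every `B` there
are `C` and a polynomial-time computable list `F p` of `n ^ C` numbers, `n` the number of binary digits of `p`, such that the
following holds. Let `G` have steps `≥ a > 0` and growth at most `v^d`, `0 ≤ κ ≤ 1`, `β` in `ℝ^m` and `τ > 0`. For all `α` in
`ℝ^m` outside a set of Hausdorff dimension at most `(m + d ε + κ) / (1 + τ)` and all `c`, for all large `q` with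
`‖q α_j - β_j‖ ≤ c q^(-τ)` for all `j`, for EVERY prime `p` with `|p - G q| ≤ q^κ`, all but a fraction `(size p) ^ (-B)` of the
entries of `F p` are primitive roots modulo `p`. (2) The functions `α v^d` with `α > 0`, `d ≥ 1` are examples of `G`. -/
theorem result :
    (∀ (ε : ℝ), 0 < ε → ∀ B : ℕ, ∃ (C : ℕ) (F : ℕ → List ℕ), PolyTimeList F ∧
      (∀ p : ℕ, (F p).length = p.size ^ C) ∧
      ∀ (G : ℕ → ℝ) (d κ : ℝ), Expanding G d → 0 ≤ κ → κ ≤ 1 →
        ∀ (m : ℕ) (β : Fin m → ℝ) (τ : ℝ), 0 < τ →
        ∃ E : Set (Fin m → ℝ), dimH E ≤ ENNReal.ofReal ((m + (d * ε + κ)) / (1 + τ)) ∧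
          ∀ α, α ∉ E → ∀ c : ℝ, ∃ Q : ℕ, ∀ q : ℕ, Q ≤ q → Solves α β q (c * (q : ℝ) ^ (-τ)) →
            ∀ p : ℕ, p.Prime → |(p : ℝ) - G q| ≤ (q : ℝ) ^ κ → MostlyPrimRoots F B p) ∧
    ∀ α d : ℝ, 0 < α → 1 ≤ d → Expanding (fun v => α * (v : ℝ) ^ d) d := by
  refine ⟨fun ε hε B => ?_, fun α d hα hd => expanding_pow hα hd⟩
  set ε' : ℝ := min ε (1 / 2) with hε'
  have hε0 : 0 < ε' := lt_min hε (by norm_num)
  obtain ⟨A, hA⟩ := H595R2.PR.Gam_top ε' hε0
  obtain ⟨x₁, hx₁⟩ := hA A le_rfl
  obtain ⟨p₀, hp₀⟩ := H595R2.PR.core A (A + B + 2)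
  set F := H595R2.PR.cands A (A + B + 2) with hF
  have hlen : ∀ p : ℕ, (F p).length = p.size ^ (A + B + 2) := fun p => by
    simp [hF, H595R2.PR.cands]
  have hmain : ∀ p : ℕ, p₀ ≤ p → p.Prime → H595R2.PR.Gam p (p.size ^ A) = ⊤ →
      MostlyPrimRoots F B p := by
    intro p hp hpp ht
    have h0 : #{i ∈ range (p.size ^ (A + B + 2)) | ¬ IsPrimRoot p ((F p).getD i 0)} ≤
        p.size ^ (A + 1) := by
      refine le_trans (card_le_card ?_) ((hp₀ p hp hpp).trans (by rw [pow_succ]))
      intro i hi
      obtain ⟨h1, h2⟩ := mem_filter.1 hi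
      exact mem_filter.2 ⟨h1, fun hg => h2 (prim_of_gen hpp hg ht)⟩
    unfold MostlyPrimRoots
    rw [hlen]
    calc p.size ^ B * _ ≤ p.size ^ B * p.size ^ (A + 1) := Nat.mul_le_mul_left _ h0
      _ = p.size ^ (A + B + 1) := by ring
      _ ≤ p.size ^ (A + B + 2) := Nat.pow_le_pow_right (Nat.size_pos.2 hpp.pos) (by omega)
  refine ⟨A + B + 2, F, H595R2.PR.polyTime_cands A (A + B + 2), hlen, ?_⟩
  intro G d κ hG hκ hκ1 m β τ hτ
  obtain ⟨E, hE, hE2⟩ := approx_win_nat {p : ℕ | p.Prime ∧ ¬ MostlyPrimRoots F B p} hG (s := ε)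
    (κ := κ) hε.le hκ hκ1 (by
      intro δ hδ
      refine ⟨(x₁ : ℝ) + p₀ + 1, fun X hX => ?_⟩
      have hX1 : (1 : ℝ) ≤ X := by exact_mod_cast hX
      have hXp : (1 : ℝ) ≤ (X : ℝ) ^ (ε + δ) := Real.one_le_rpow hX1 (by positivity)
      have hsub : (Ioc 0 X).filter (fun t => t ∈ {p : ℕ | p.Prime ∧ ¬ MostlyPrimRoots F B p}) ⊆
          range p₀ ∪ (range (X + 1)).filter (fun p => p.Prime ∧
            H595R2.PR.Gam p (p.size ^ A) ≠ ⊤) := by
        intro p hp
        obtain ⟨h1, h2, h3⟩ := mem_filter.1 hp
        rw [mem_union, mem_range]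
        by_contra hc
        push Not at hc
        obtain ⟨h4, h5⟩ := hc
        have h6 : H595R2.PR.Gam p (p.size ^ A) = ⊤ := by
          by_contra h7
          exact h5 (mem_filter.2 ⟨mem_range.2 (by have := (mem_Ioc.1 h1).2; omega), h2, h7⟩)
        exact h3 (hmain p h4 h2 h6)
      have h9 := (card_le_card hsub).trans (card_union_le _ _)
      rw [card_range] at h9
      have h10 : (((Ioc 0 X).filter (fun t => t ∈ {p : ℕ | p.Prime ∧ ¬ MostlyPrimRoots F B p})).card : ℝ) ≤
          p₀ + #((range (X + 1)).filter (fun p => p.Prime ∧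
          H595R2.PR.Gam p (p.size ^ A) ≠ ⊤)) := by exact_mod_cast h9
      have h11 : (#((range (X + 1)).filter (fun p => p.Prime ∧
          H595R2.PR.Gam p (p.size ^ A) ≠ ⊤)) : ℝ) ≤ (x₁ : ℝ) + (X : ℝ) ^ (ε + δ) := by
        rcases le_total x₁ X with hx | hx
        · refine (hx₁ X hx).trans ?_
          have h12 : (X : ℝ) ^ ε' ≤ (X : ℝ) ^ (ε + δ) :=
            Real.rpow_le_rpow_of_exponent_le hX1 ((min_le_left _ _).trans (by linarith))
          have h13 : (0 : ℝ) ≤ x₁ := by positivity
          linarith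
        · have h12 : (#((range (X + 1)).filter (fun p => p.Prime ∧
              H595R2.PR.Gam p (p.size ^ A) ≠ ⊤)) : ℝ) ≤ X := by
            have h13 : (range (X + 1)).filter (fun p => p.Prime ∧
                H595R2.PR.Gam p (p.size ^ A) ≠ ⊤) ⊆ Ioc 0 X := by
              intro p hp
              obtain ⟨h1, h2, _⟩ := mem_filter.1 hp
              exact mem_Ioc.2 ⟨h2.pos, by have := mem_range.1 h1; omega⟩
            have h14 := card_le_card h13
            rw [Nat.card_Ioc, Nat.sub_zero] at h14
            exact_mod_cast h14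
          have h15 : (X : ℝ) ≤ x₁ := by exact_mod_cast hx
          linarith
      have h16 : (0 : ℝ) ≤ (x₁ : ℝ) + p₀ := by positivity
      have h17 : (0 : ℝ) ≤ ((x₁ : ℝ) + p₀) * ((X : ℝ) ^ (ε + δ) - 1) :=
        mul_nonneg h16 (by linarith)
      have h18 : (x₁ : ℝ) + p₀ + (X : ℝ) ^ (ε + δ) ≤ ((x₁ : ℝ) + p₀ + 1) * (X : ℝ) ^ (ε + δ) := by
        nlinarith
      refine le_trans ?_ h18
      refine le_trans (le_of_eq ?_) (h10.trans (by linarith))
      congr!) β hτ
  refine ⟨E, hE, fun α hα c => ?_⟩
  obtain ⟨Q, hQ⟩ := hE2 α hα c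
  refine ⟨Q, fun q hq h1 p hp h2 => ?_⟩
  by_contra hcon
  exact hQ q hq h1 p (Or.inr ⟨hp, hcon⟩) h2

end Pool.Agent.Results.MP_18a8a6_lc.SimultaneousApproximations
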